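import Pool.Agent.Helper92.FR.GoalsS
import Pool.Agent.Helper62.FR.PTN
import Pool.Agent.Helper92.VP.Alg2

/-!
# Packet FR MKP: the reduction to a box with few rows is polynomial time
-/

set_option autoImplicit false

namespace Pool.Agent.Helper87.FR

open Pool.Agent.Helper81.CC Pool.Agent.Bin Pool.Agent.Helper92.VP Pool.Agent.Helper92.FR
open Pool.Agent.Helper62.FR

variable {α : Type} [ToData α]

theorem PT_ssize0 : PolyTime ssize := by
  unfold ssize
  refine PolyTime.add (by fun_prop) (PolyTime.sum ?_)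
  refine PolyTime.list_map (f := fun _ (r : List RQ × RQ) => (r.1.map RQ.bits).sum + r.2.bits)
      (by fun_prop) ?_
  refine PolyTime.add (PolyTime.sum ?_) (PT_bits (by fun_prop))
  refine PolyTime.list_map (f := fun _ (q : RQ) => q.bits) (by fun_prop) (PT_bits (by fun_prop))

@[fun_prop] theorem PT_ssize {f : α → Sys} (hf : PolyTime f) : PolyTime (fun a => ssize (f a)) :=
  PT_ssize0.comp hf

@[fun_prop] theorem PT_rco {f : α → List RQ × RQ} {g : α → ℕ} (hf : PolyTime f)
    (hg : PolyTime g) : PolyTime (fun a => rco (f a) (g a)) := by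
  unfold rco; fun_prop

@[fun_prop] theorem PT_nzl {n : α → ℕ} {f : α → List RQ × RQ} (hn : PolyTime n)
    (hf : PolyTime f) : PolyTime (fun a => nzl (n a) (f a)) := by
  unfold nzl; fun_prop

@[fun_prop] theorem PT_ratio {f : α → List RQ × RQ} {g : α → ℕ} (hf : PolyTime f)
    (hg : PolyTime g) : PolyTime (fun a => ratio (f a) (g a)) := by
  unfold ratio; fun_prop

@[fun_prop] theorem PT_qmax {l : α → List Qn} (hl : PolyTime l) :
    PolyTime (fun a => qmax (l a)) := by
  unfold qmax; fun_prop

@[fun_prop] theorem PT_qmin {l : α → List Qn} (hl : PolyTime l) :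
    PolyTime (fun a => qmin (l a)) := by
  unfold qmin; fun_prop

@[fun_prop] theorem PT_loS {f : α → Sys} {g : α → ℕ} (hf : PolyTime f)
    (hg : PolyTime g) : PolyTime (fun a => loS (f a) (g a)) := by
  unfold loS; fun_prop

@[fun_prop] theorem PT_upS {f : α → Sys} {g : α → ℕ} (hf : PolyTime f)
    (hg : PolyTime g) : PolyTime (fun a => upS (f a) (g a)) := by
  unfold upS; fun_prop

@[fun_prop] theorem PT_padRQ {k : α → ℕ} {f : α → RQ} (hk : PolyTime k)
    (hf : PolyTime f) : PolyTime (fun a => padRQ (k a) (f a)) := by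
  unfold padRQ; fun_prop

@[fun_prop] theorem PT_toRQ' {f : α → Qn} (hf : PolyTime f) : PolyTime (fun a => toRQ (f a)) :=
  PT_toRQ hf

/-- MKP. The reduction is polynomial time. -/
theorem mkp : MkpStmt := by
  constructor
  · unfold mkI; fun_prop
  · unfold bad0; fun_prop

end Pool.Agent.Helper87.FR
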