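import Pool.Agent.Helper92.FR.GoalsA

/-!
# Packet FR TRU: upper bound for the logarithm of the truncated exponential moment
-/

set_option autoImplicit false

namespace Pool.Agent.Helper87.FR

open MeasureTheory Pool.Agent.Helper92.FR

noncomputable section

/-- The moments `∫_0^1 x^k e^{ax} dx`. -/
def Mk (k : ℕ) (a : ℝ) : ℝ := ∫ x in (0 : ℝ)..1, x ^ k * Real.exp (a * x)

theorem Mk_zero (a : ℝ) : Mk 0 a = MM a := by
  unfold Mk MM
  simp

theorem Mk_one (a : ℝ) : Mk 1 a / MM a = mm a := by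
  unfold Mk mm
  simp

theorem cont_k (k : ℕ) (a : ℝ) : Continuous fun x : ℝ => x ^ k * Real.exp (a * x) := by
  fun_prop

theorem intk (k : ℕ) (a : ℝ) :
    IntervalIntegrable (fun x : ℝ => x ^ k * Real.exp (a * x)) volume 0 1 :=
  (cont_k k a).intervalIntegrable _ _

theorem hasDeriv_Mk (k : ℕ) (a : ℝ) : HasDerivAt (Mk k) (Mk (k + 1) a) a := by
  have huniv : ProbabilityTheory.integrableExpSet (id : ℝ → ℝ)
      (volume.restrict (Set.Ioc (0 : ℝ) 1)) = Set.univ := by
    ext t
    simp only [Set.mem_univ, iff_true]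
    have : IntervalIntegrable (fun x : ℝ => Real.exp (t * x)) volume 0 1 :=
      (by fun_prop : Continuous fun x : ℝ => Real.exp (t * x)).intervalIntegrable _ _
    rw [intervalIntegrable_iff_integrableOn_Ioc_of_le zero_le_one] at this
    exact this
  have h := ProbabilityTheory.hasDerivAt_integral_pow_mul_exp_real
    (X := (id : ℝ → ℝ)) (μ := volume.restrict (Set.Ioc (0 : ℝ) 1)) (t := a)
    (by rw [huniv, interior_univ]; exact Set.mem_univ _) k
  have e1 : Mk k = fun t => ∫ ω, (id ω : ℝ) ^ k * Real.exp (t * id ω)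
      ∂(volume.restrict (Set.Ioc (0 : ℝ) 1)) := by
    funext t
    unfold Mk
    rw [intervalIntegral.integral_of_le zero_le_one]
    rfl
  have e2 : Mk (k + 1) a = ∫ ω, (id ω : ℝ) ^ (k + 1) * Real.exp (a * id ω)
      ∂(volume.restrict (Set.Ioc (0 : ℝ) 1)) := by
    unfold Mk
    rw [intervalIntegral.integral_of_le zero_le_one]
    rfl
  rw [e1, e2]
  exact h

theorem MM_pos (a : ℝ) : 0 < MM a := by
  unfold MM
  apply intervalIntegral.intervalIntegral_pos_of_pos _ (fun x => Real.exp_pos _) one_pos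
  exact (by fun_prop : Continuous fun x : ℝ => Real.exp (a * x)).intervalIntegrable _ _

/-- Explicit values for `s ≠ 0`. -/
theorem Mk_explicit {s : ℝ} (hs : s ≠ 0) :
    Mk 0 s = (Real.exp s - 1) / s ∧ Mk 1 s = (s * Real.exp s - Real.exp s + 1) / s ^ 2 ∧
    Mk 2 s = (s ^ 2 * Real.exp s - 2 * s * Real.exp s + 2 * Real.exp s - 2) / s ^ 3 := by
  have hE : ∀ x : ℝ, HasDerivAt (fun x => Real.exp (s * x)) (s * Real.exp (s * x)) x := by
    intro x
    have h1 : HasDerivAt (fun x : ℝ => s * x) (s * 1) x := (hasDerivAt_id x).const_mul s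
    have := h1.exp
    convert this using 1
    ring
  refine ⟨?_, ?_, ?_⟩
  · unfold Mk
    have h : ∀ x ∈ Set.uIcc (0 : ℝ) 1,
        HasDerivAt (fun x => Real.exp (s * x) / s) (x ^ 0 * Real.exp (s * x)) x := by
      intro x _
      have h2 := (hE x).div_const s
      have e : s * Real.exp (s * x) / s = x ^ 0 * Real.exp (s * x) := by
        field_simp
      rw [e] at h2
      exact h2
    rw [intervalIntegral.integral_eq_sub_of_hasDerivAt h (intk 0 s)]
    simp
    ring
  · unfold Mk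
    have h : ∀ x ∈ Set.uIcc (0 : ℝ) 1,
        HasDerivAt (fun x => (s * x - 1) * Real.exp (s * x) / s ^ 2)
          (x ^ 1 * Real.exp (s * x)) x := by
      intro x _
      have h1 : HasDerivAt (fun x : ℝ => s * x - 1) (s * 1) x :=
        ((hasDerivAt_id x).const_mul s).sub_const 1
      have h2 := (h1.mul (hE x)).div_const (s ^ 2)
      have e : (s * 1 * Real.exp (s * x) + (s * x - 1) * (s * Real.exp (s * x))) / s ^ 2 =
          x ^ 1 * Real.exp (s * x) := by
        field_simp
        ring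
      rw [e] at h2
      exact h2
    rw [intervalIntegral.integral_eq_sub_of_hasDerivAt h (intk 1 s)]
    simp
    ring
  · unfold Mk
    have h : ∀ x ∈ Set.uIcc (0 : ℝ) 1,
        HasDerivAt (fun x => (s ^ 2 * x ^ 2 - 2 * s * x + 2) * Real.exp (s * x) / s ^ 3)
          (x ^ 2 * Real.exp (s * x)) x := by
      intro x _
      have h1 : HasDerivAt (fun x : ℝ => s ^ 2 * x ^ 2 - 2 * s * x + 2)
          (s ^ 2 * (2 * x) - 2 * s * 1) x := by
        have a1 : HasDerivAt (fun x : ℝ => s ^ 2 * x ^ 2) (s ^ 2 * (2 * x)) x := by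
          have := (hasDerivAt_pow 2 x).const_mul (s ^ 2)
          simpa using this
        exact (a1.sub ((hasDerivAt_id x).const_mul (2 * s))).add_const 2
      have h2 := (h1.mul (hE x)).div_const (s ^ 3)
      have e : ((s ^ 2 * (2 * x) - 2 * s * 1) * Real.exp (s * x) +
          (s ^ 2 * x ^ 2 - 2 * s * x + 2) * (s * Real.exp (s * x))) / s ^ 3 =
          x ^ 2 * Real.exp (s * x) := by
        field_simp
        ring
      rw [e] at h2
      exact h2
    rw [intervalIntegral.integral_eq_sub_of_hasDerivAt h (intk 2 s)]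
    simp
    ring

/-- The variance, times the square of the mass, is at most a quarter of this square. -/
theorem var_quarter (s : ℝ) : Mk 2 s * Mk 0 s - Mk 1 s ^ 2 ≤ Mk 0 s ^ 2 * (1 / 4) := by
  have h21 : Mk 2 s ≤ Mk 1 s := by
    unfold Mk
    apply intervalIntegral.integral_mono_on zero_le_one (intk 2 s) (intk 1 s)
    intro x hx
    apply mul_le_mul_of_nonneg_right _ (Real.exp_pos _).le
    nlinarith [hx.1, hx.2]
  have h0 : 0 < Mk 0 s := by
    rw [Mk_zero]
    exact MM_pos s
  nlinarith [sq_nonneg (2 * Mk 1 s - Mk 0 s), mul_le_mul_of_nonneg_right h21 h0.le]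

theorem var_inv {s : ℝ} (hs : s ≠ 0) : Mk 2 s * Mk 0 s - Mk 1 s ^ 2 ≤ Mk 0 s ^ 2 / s ^ 2 := by
  obtain ⟨h0, h1, h2⟩ := Mk_explicit hs
  have h4 : 0 < s ^ 4 := by positivity
  have e : Mk 0 s ^ 2 / s ^ 2 - (Mk 2 s * Mk 0 s - Mk 1 s ^ 2) = Real.exp s / s ^ 2 := by
    rw [h0, h1, h2]
    field_simp
    ring
  have : 0 ≤ Real.exp s / s ^ 2 := by positivity
  linarith

/-- The bound for the variance. -/
theorem var_bound (s : ℝ) :
    (Mk 2 s * Mk 0 s - Mk 1 s ^ 2) / Mk 0 s ^ 2 ≤ 9 / 4 / (1 + |s|) ^ 2 := by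
  have h0 : 0 < Mk 0 s := by
    rw [Mk_zero]
    exact MM_pos s
  rw [div_le_iff₀ (by positivity)]
  have habs : 0 ≤ |s| := abs_nonneg s
  rcases le_or_gt |s| 2 with h | h
  · refine (var_quarter s).trans ?_
    rw [mul_comm]
    apply mul_le_mul_of_nonneg_right _ (by positivity)
    rw [le_div_iff₀ (by positivity)]
    nlinarith
  · have hs : s ≠ 0 := by
      rintro rfl
      norm_num at h
    refine (var_inv hs).trans ?_
    rw [div_eq_mul_one_div, mul_comm]
    apply mul_le_mul_of_nonneg_right _ (by positivity)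
    rw [← sq_abs s, div_le_div_iff₀ (by positivity) (by positivity)]
    nlinarith

theorem hasDeriv_GG (s : ℝ) : HasDerivAt GG (mm s) s := by
  have h := (hasDeriv_Mk 0 s).log (by rw [Mk_zero]; exact (MM_pos s).ne')
  have e : GG = fun y => Real.log (Mk 0 y) := by
    funext y
    unfold GG
    rw [Mk_zero]
  rw [e]
  convert h using 1
  rw [Mk_zero]
  exact (Mk_one s).symm

theorem hasDeriv_mm (s : ℝ) :
    HasDerivAt mm ((Mk 2 s * Mk 0 s - Mk 1 s ^ 2) / Mk 0 s ^ 2) s := by
  have h := (hasDeriv_Mk 1 s).div (hasDeriv_Mk 0 s) (by rw [Mk_zero]; exact (MM_pos s).ne')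
  have e : mm = fun y => Mk 1 y / Mk 0 y := by
    funext y
    rw [Mk_zero, Mk_one]
  rw [e]
  have e2 : (Mk 2 s * Mk 0 s - Mk 1 s ^ 2) / Mk 0 s ^ 2 =
      (Mk (1 + 1) s * Mk 0 s - Mk 1 s * Mk (0 + 1) s) / Mk 0 s ^ 2 := by
    norm_num
    ring
  rw [e2]
  exact h

theorem tru : TruStmt := by
  intro a δ hδ
  set B : ℝ := 9 / (1 + |a|) ^ 2 with hB
  have ha : 0 ≤ |a| := abs_nonneg a
  -- second derivative on the segment
  have hv : ∀ t : ℝ, 0 ≤ t → t ≤ 1 →
      (Mk 2 (a + t * δ) * Mk 0 (a + t * δ) - Mk 1 (a + t * δ) ^ 2) / Mk 0 (a + t * δ) ^ 2 ≤ B := by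
    intro t ht0 ht1
    refine (var_bound _).trans ?_
    rw [hB]
    have h1 : |t * δ| ≤ |δ| := by
      rw [abs_mul, abs_of_nonneg ht0]
      nlinarith [abs_nonneg δ]
    have h2 : |a| ≤ |a + t * δ| + |t * δ| := by
      have := abs_sub (a + t * δ) (t * δ)
      simpa using this
    have h3 : (1 + |a|) / 2 ≤ 1 + |a + t * δ| := by linarith
    have h4 : ((1 + |a|) / 2) ^ 2 ≤ (1 + |a + t * δ|) ^ 2 :=
      pow_le_pow_left₀ (by positivity) h3 2
    rw [div_le_div_iff₀ (by positivity) (by positivity)]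
    nlinarith
  -- derivatives along the segment
  have hphi : ∀ t : ℝ, HasDerivAt (fun t => GG (a + t * δ)) (mm (a + t * δ) * δ) t := by
    intro t
    have h1 : HasDerivAt (fun t : ℝ => a + t * δ) δ t := by
      have := ((hasDerivAt_id t).mul_const δ).const_add a
      simpa using this
    exact HasDerivAt.comp (h₂ := GG) t (hasDeriv_GG (a + t * δ)) h1
  have hphi' : ∀ t : ℝ, HasDerivAt (fun t => mm (a + t * δ) * δ)
      ((Mk 2 (a + t * δ) * Mk 0 (a + t * δ) - Mk 1 (a + t * δ) ^ 2) / Mk 0 (a + t * δ) ^ 2 * δ * δ)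
      t := by
    intro t
    have h1 : HasDerivAt (fun t : ℝ => a + t * δ) δ t := by
      have := ((hasDerivAt_id t).mul_const δ).const_add a
      simpa using this
    exact (HasDerivAt.comp (h₂ := mm) t (hasDeriv_mm (a + t * δ)) h1).mul_const δ
  -- first comparison
  have hA : ∀ t : ℝ, HasDerivAt (fun t => mm a * δ + B * δ ^ 2 * t - mm (a + t * δ) * δ)
      (B * δ ^ 2 - (Mk 2 (a + t * δ) * Mk 0 (a + t * δ) - Mk 1 (a + t * δ) ^ 2) /
        Mk 0 (a + t * δ) ^ 2 * δ * δ) t := by
    intro t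
    have h1 : HasDerivAt (fun t : ℝ => mm a * δ + B * δ ^ 2 * t) (B * δ ^ 2) t := by
      have := ((hasDerivAt_id t).const_mul (B * δ ^ 2)).const_add (mm a * δ)
      simpa using this
    exact h1.sub (hphi' t)
  have mono1 : MonotoneOn (fun t => mm a * δ + B * δ ^ 2 * t - mm (a + t * δ) * δ)
      (Set.Icc 0 1) := by
    apply monotoneOn_of_deriv_nonneg (convex_Icc 0 1)
    · exact fun t _ => (hA t).continuousAt.continuousWithinAt
    · exact fun t _ => (hA t).differentiableAt.differentiableWithinAt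
    · intro t ht
      rw [interior_Icc] at ht
      rw [(hA t).deriv]
      have := mul_le_mul_of_nonneg_right (hv t ht.1.le ht.2.le) (sq_nonneg δ)
      nlinarith
  have pos1 : ∀ t ∈ Set.Icc (0 : ℝ) 1, 0 ≤ mm a * δ + B * δ ^ 2 * t - mm (a + t * δ) * δ := by
    intro t ht
    have := mono1 (Set.left_mem_Icc.2 zero_le_one) ht ht.1
    simpa using this
  -- second comparison
  have hC : ∀ t : ℝ, HasDerivAt
      (fun t => mm a * δ * t + B * δ ^ 2 * (t ^ 2 / 2) - GG (a + t * δ))
      (mm a * δ + B * δ ^ 2 * t - mm (a + t * δ) * δ) t := by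
    intro t
    have h1 : HasDerivAt (fun t : ℝ => mm a * δ * t) (mm a * δ) t := by
      have := (hasDerivAt_id t).const_mul (mm a * δ)
      simpa using this
    have h2 : HasDerivAt (fun t : ℝ => B * δ ^ 2 * (t ^ 2 / 2)) (B * δ ^ 2 * t) t := by
      have := ((hasDerivAt_pow 2 t).div_const 2).const_mul (B * δ ^ 2)
      have e : B * δ ^ 2 * (((2 : ℕ) : ℝ) * t ^ (2 - 1) / 2) = B * δ ^ 2 * t := by
        norm_num
      rw [e] at this
      exact this
    exact (h1.add h2).sub (hphi t)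
  have mono2 : MonotoneOn (fun t => mm a * δ * t + B * δ ^ 2 * (t ^ 2 / 2) - GG (a + t * δ))
      (Set.Icc 0 1) := by
    apply monotoneOn_of_deriv_nonneg (convex_Icc 0 1)
    · exact fun t _ => (hC t).continuousAt.continuousWithinAt
    · exact fun t _ => (hC t).differentiableAt.differentiableWithinAt
    · intro t ht
      rw [interior_Icc] at ht
      rw [(hC t).deriv]
      exact pos1 t ⟨ht.1.le, ht.2.le⟩
  have fin := mono2 (Set.left_mem_Icc.2 zero_le_one) (Set.right_mem_Icc.2 zero_le_one) zero_le_one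
  simp only [mul_zero, zero_mul, add_zero, one_mul, mul_one, one_pow] at fin
  have e : 9 / 2 * δ ^ 2 / (1 + |a|) ^ 2 = B * δ ^ 2 * (1 / 2) := by
    rw [hB]
    ring
  rw [e]
  norm_num at fin ⊢
  linarith

end

end Pool.Agent.Helper87.FR
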